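import Pool.Agent.W186.AI.Spec

set_option autoImplicit false

/-!
# Joint holomorphy of `S` in one of the coordinates of `ω` and in `t`
-/

namespace Pool.Agent.W53.AI.SUP

open Complex Filter Topology Metric Set
open scoped Real
open Pool.Agent.W186.AI

/-- the size of the powers -/
theorem norm_pow_le (p : Nat.Primes) (c s : ℂ) (hc : ‖c‖ ≤ 1) (hs : 9 ≤ s.re) :
    ‖c * ((p : ℕ) : ℂ) ^ (-s)‖ ≤ ((p : ℕ) : ℝ) ^ (-9 : ℝ) := by
  have hp : 1 ≤ ((p : ℕ) : ℝ) := by exact_mod_cast p.2.one_lt.le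
  rw [norm_mul, Complex.norm_natCast_cpow_of_pos p.2.pos, Complex.neg_re]
  calc ‖c‖ * ((p : ℕ) : ℝ) ^ (-s.re) ≤ 1 * ((p : ℕ) : ℝ) ^ (-9 : ℝ) := by
        refine mul_le_mul hc ?_ (by positivity) zero_le_one
        exact Real.rpow_le_rpow_of_exponent_le hp (by linarith)
    _ = _ := one_mul _

theorem rpow_le_half (p : Nat.Primes) : ((p : ℕ) : ℝ) ^ (-9 : ℝ) ≤ 1 / 2 := by
  have hp : 2 ≤ ((p : ℕ) : ℝ) := by exact_mod_cast p.2.two_le
  calc ((p : ℕ) : ℝ) ^ (-9 : ℝ) ≤ ((p : ℕ) : ℝ) ^ (-1 : ℝ) :=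
        Real.rpow_le_rpow_of_exponent_le (by linarith) (by norm_num)
    _ = ((p : ℕ) : ℝ)⁻¹ := Real.rpow_neg_one _
    _ ≤ 2⁻¹ := inv_anti₀ (by norm_num) hp
    _ = 1 / 2 := by norm_num

theorem re_add (σ : ℝ) (hσ : 10 ≤ σ) (t : ℂ) (ht : ‖t‖ < 1) : 9 ≤ ((σ : ℂ) + I * t).re := by
  have h1 := (Complex.abs_im_le_norm t).trans_lt ht
  rw [abs_lt] at h1
  simp only [add_re, ofReal_re, mul_re, I_re, zero_mul, I_im, one_mul, zero_sub]
  linarith [h1.2]

theorem re_sub (σ : ℝ) (hσ : 10 ≤ σ) (t : ℂ) (ht : ‖t‖ < 1) : 9 ≤ ((σ : ℂ) - I * t).re := by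
  have h1 := (Complex.abs_im_le_norm t).trans_lt ht
  rw [abs_lt] at h1
  simp only [sub_re, ofReal_re, mul_re, I_re, zero_mul, I_im, one_mul, zero_sub]
  linarith [h1.1]

/-- the term of `p` -/
noncomputable def T (σ : ℝ) (p : Nat.Primes) (c t : ℂ) : ℂ :=
  log (1 - c * ((p : ℕ) : ℂ) ^ (-((σ : ℂ) + I * t))) -
    log (1 - c * ((p : ℕ) : ℂ) ^ (-((σ : ℂ) - I * t)))

theorem norm_log_le (p : Nat.Primes) (c s : ℂ) (hc : ‖c‖ ≤ 1) (hs : 9 ≤ s.re) :
    ‖log (1 - c * ((p : ℕ) : ℂ) ^ (-s))‖ ≤ 3 / 2 * ((p : ℕ) : ℝ) ^ (-9 : ℝ) := by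
  have h1 := norm_pow_le p c s hc hs
  have h2 : ‖-(c * ((p : ℕ) : ℂ) ^ (-s))‖ ≤ 1 / 2 := by
    rw [norm_neg]
    exact h1.trans (rpow_le_half p)
  have h3 := Complex.norm_log_one_add_half_le_self h2
  rw [norm_neg, ← sub_eq_add_neg] at h3
  linarith

theorem norm_T_le (σ : ℝ) (hσ : 10 ≤ σ) (p : Nat.Primes) (c t : ℂ) (hc : ‖c‖ ≤ 1)
    (ht : ‖t‖ < 1) : ‖T σ p c t‖ ≤ 3 * ((p : ℕ) : ℝ) ^ (-9 : ℝ) := by
  have h1 := norm_log_le p c _ hc (re_add σ hσ t ht)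
  have h2 := norm_log_le p c _ hc (re_sub σ hσ t ht)
  exact (norm_sub_le _ _).trans (by linarith)

theorem mem_slit (p : Nat.Primes) (c s : ℂ) (hc : ‖c‖ ≤ 1) (hs : 9 ≤ s.re) :
    1 - c * ((p : ℕ) : ℂ) ^ (-s) ∈ slitPlane := by
  rw [sub_eq_add_neg]
  refine Complex.mem_slitPlane_of_norm_lt_one ?_
  rw [norm_neg]
  have h1 := (norm_pow_le p c s hc hs).trans (rpow_le_half p)
  linarith

theorem diff_T (σ : ℝ) (hσ : 10 ≤ σ) (p : Nat.Primes) (U : Set (ℂ × ℂ))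
    (hU : ∀ q ∈ U, ‖q.1‖ ≤ 1 ∧ ‖q.2‖ < 1) :
    DifferentiableOn ℂ (fun q : ℂ × ℂ => T σ p q.1 q.2) U := by
  have hp : ((p : ℕ) : ℂ) ≠ 0 := by exact_mod_cast p.2.ne_zero
  have h1 : Differentiable ℂ fun q : ℂ × ℂ => ((p : ℕ) : ℂ) ^ (-((σ : ℂ) + I * q.2)) := by
    refine Differentiable.const_cpow ?_ (Or.inl hp)
    fun_prop
  have h2 : Differentiable ℂ fun q : ℂ × ℂ => ((p : ℕ) : ℂ) ^ (-((σ : ℂ) - I * q.2)) := by
    refine Differentiable.const_cpow ?_ (Or.inl hp)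
    fun_prop
  refine DifferentiableOn.sub ?_ ?_
  · refine DifferentiableOn.clog ?_ ?_
    · exact ((differentiable_const (1 : ℂ)).sub (differentiable_fst.mul h1)).differentiableOn
    · intro q hq
      exact mem_slit p q.1 _ (hU q hq).1 (re_add σ hσ q.2 (hU q hq).2)
  · refine DifferentiableOn.clog ?_ ?_
    · exact ((differentiable_const (1 : ℂ)).sub (differentiable_fst.mul h2)).differentiableOn
    · intro q hq
      exact mem_slit p q.1 _ (hU q hq).1 (re_sub σ hσ q.2 (hU q hq).2)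

theorem summable_u : Summable fun p : Nat.Primes => 3 * ((p : ℕ) : ℝ) ^ (-9 : ℝ) :=
  (Nat.Primes.summable_rpow.2 (by norm_num)).mul_left 3

open scoped Classical in
theorem main : S_SUP := by
  intro σ hσ ω hω p
  -- the part which does not depend on `u`
  let f : Nat.Primes → ℂ → ℂ := fun p' t => if p' = p then 0 else T σ p' (ω p') t
  have hfle : ∀ (p' : Nat.Primes) (t : ℂ), t ∈ ball (0 : ℂ) 1 →
      ‖f p' t‖ ≤ 3 * ((p' : ℕ) : ℝ) ^ (-9 : ℝ) := by
    intro p' t ht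
    by_cases h : p' = p
    · simp only [f, if_pos h, norm_zero]
      positivity
    · simp only [f, if_neg h]
      exact norm_T_le σ hσ p' (ω p') t (hω p') (by simpa using ht)
  have hfd : ∀ p' : Nat.Primes, DifferentiableOn ℂ (f p') (ball (0 : ℂ) 1) := by
    intro p'
    by_cases h : p' = p
    · have : f p' = fun _ => 0 := by
        funext t
        simp only [f, if_pos h]
      rw [this]
      exact differentiableOn_const _
    · have h1 : f p' = (fun q : ℂ × ℂ => T σ p' q.1 q.2) ∘ fun t => (ω p', t) := by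
        funext t
        simp only [f, if_neg h, Function.comp]
      rw [h1]
      refine (diff_T σ hσ p' {q | ‖q.1‖ ≤ 1 ∧ ‖q.2‖ < 1} fun q hq => hq).comp
        ((differentiable_const _).prodMk differentiable_id).differentiableOn ?_
      intro t ht
      exact ⟨hω p', by simpa using ht⟩
  have hF : DifferentiableOn ℂ (fun t => ∑' p', f p' t) (ball (0 : ℂ) 1) :=
    differentiableOn_tsum_of_summable_norm summable_u hfd isOpen_ball hfle
  have hF2 : DifferentiableOn ℂ (fun q : ℂ × ℂ => ∑' p', f p' q.2)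
      (ball (0 : ℂ) 1 ×ˢ ball (0 : ℂ) 1) :=
    hF.comp differentiable_snd.differentiableOn fun q hq => hq.2
  have hT : DifferentiableOn ℂ (fun q : ℂ × ℂ => T σ p q.1 q.2)
      (ball (0 : ℂ) 1 ×ˢ ball (0 : ℂ) 1) := by
    refine diff_T σ hσ p _ fun q hq => ⟨?_, ?_⟩
    · have h1 := hq.1
      rw [mem_ball_zero_iff] at h1
      exact h1.le
    · have h1 := hq.2
      rwa [mem_ball_zero_iff] at h1
  have hsum : DifferentiableOn ℂ
      (fun q : ℂ × ℂ => ((∑' p', f p' q.2) + T σ p q.1 q.2) * (2 * I)⁻¹)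
      (ball (0 : ℂ) 1 ×ˢ ball (0 : ℂ) 1) :=
    (hF2.add hT).mul (differentiableOn_const _)
  refine hsum.congr ?_
  intro q hq
  have hq2 : q.2 ∈ ball (0 : ℂ) 1 := hq.2
  unfold S
  rw [div_eq_mul_inv]
  congr 1
  have hs1 : Summable fun p' => f p' q.2 :=
    Summable.of_norm_bounded summable_u fun p' => hfle p' q.2 hq2
  have hs2 : HasSum (fun p' => if p' = p then T σ p q.1 q.2 else 0) (T σ p q.1 q.2) :=
    hasSum_ite_eq p (T σ p q.1 q.2)
  have h3 := (hs1.hasSum.add hs2).tsum_eq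
  rw [← h3]
  refine tsum_congr fun p' => ?_
  by_cases h : p' = p
  · subst h
    simp only [f, if_true, zero_add, Function.update_self, T]
  · simp only [f, if_neg h, add_zero, Function.update_of_ne h, T]

end Pool.Agent.W53.AI.SUP
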